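import Pool.Agent.Q233.MI.Final

/-!
# The mutual information of a qubit dichotomy is pseudo-concave along the Helstrom family

For every qubit dichotomy `(ρ, σ; p₀, p₁)` the Shannon mutual information `I(λ)` of the
measurement in the eigenbasis of `H(λ) = λ ω - (ρ - σ)` is pseudo-concave on `[-λ_*, λ_*]`.
-/

set_option autoImplicit false

open Matrix Set
open scoped ComplexOrder

namespace Pool.Agent.Results.MP_6f99f7_mp.PseudoConcave

/-- operators on the qubit space `ℂ²` -/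
abbrev Qubit : Type := Matrix (Fin 2) (Fin 2) ℂ

/-- a density matrix on `ℂ²` -/
structure IsState (ρ : Qubit) : Prop where
  posSemidef : ρ.PosSemidef
  trace_one : ρ.trace = 1

/-- `Tr (A B)` (the real part; the trace of a product of two Hermitian matrices is real) -/
noncomputable def tr (A B : Qubit) : ℝ := (A * B).trace.re

/-- `μ = (Tr σ² - Tr ρσ) / Tr (ρ - σ)²` -/
noncomputable def mu (ρ σ : Qubit) : ℝ := (tr σ σ - tr ρ σ) / tr (ρ - σ) (ρ - σ)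

/-- `ω = μ ρ + (1 - μ) σ` -/
noncomputable def omega (ρ σ : Qubit) : Qubit :=
  ((mu ρ σ : ℝ) : ℂ) • ρ + ((1 - mu ρ σ : ℝ) : ℂ) • σ

/-- `H(λ) = λ ω - (ρ - σ)` -/
noncomputable def H (ρ σ : Qubit) (l : ℝ) : Qubit := (l : ℂ) • omega ρ σ - (ρ - σ)

/-- `Tr (ρ - σ)² - Tr ρ² Tr σ² + (Tr ρσ)²`, the radicand in the definition of `λ_*` -/
noncomputable def radicand (ρ σ : Qubit) : ℝ :=
  tr (ρ - σ) (ρ - σ) - tr ρ ρ * tr σ σ + tr ρ σ ^ 2

/-- `λ_*` -/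
noncomputable def lamStar (ρ σ : Qubit) : ℝ := tr (ρ - σ) (ρ - σ) / Real.sqrt (radicand ρ σ)

/-- `Q 0, Q 1` are the rank-one orthogonal projectors onto two orthogonal eigenvectors of `A`. -/
structure IsEigenMeasurement (A : Qubit) (Q : Fin 2 → Qubit) : Prop where
  hermitian : ∀ y, (Q y).IsHermitian
  idempotent : ∀ y, Q y * Q y = Q y
  rank_one : ∀ y, (Q y).trace = 1
  complete : Q 0 + Q 1 = 1
  eigen : ∀ y, ∃ e : ℝ, A * Q y = (e : ℂ) • Q y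

/-- the joint distribution `P(x, y) = p_x Tr (ρ_x Π_y)` -/
noncomputable def joint (p : Fin 2 → ℝ) (ρ Q : Fin 2 → Qubit) (x y : Fin 2) : ℝ :=
  p x * tr (ρ x) (Q y)

/-- Shannon mutual information `∑ P(x,y) log (P(x,y) / (P(x) P(y)))` (natural logarithm; terms
with `P(x,y) = 0` are `0`) -/
noncomputable def mutualInformation (P : Fin 2 → Fin 2 → ℝ) : ℝ :=
  ∑ x, ∑ y, P x y * Real.log (P x y / ((∑ y', P x y') * ∑ x', P x' y))

/-- `f` is pseudo-concave on `[a, b]`: it is differentiable on `[a, b]` (one-sided at the end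
points) and `f'(x) (y - x) ≤ 0` implies `f y ≤ f x`. -/
def PseudoConcaveOn (f : ℝ → ℝ) (a b : ℝ) : Prop :=
  DifferentiableOn ℝ f (Icc a b) ∧
    ∀ x ∈ Icc a b, ∀ y ∈ Icc a b, derivWithin f (Icc a b) x * (y - x) ≤ 0 → f y ≤ f x

/-- For every qubit dichotomy `(ρ 0, ρ 1; p 0, p 1)`: the radicand is positive, `λ_* > 0`, every
`H(λ)` has an eigen-measurement, the mutual information does not depend on the choice of the
eigen-measurement, and `λ ↦ I(λ)` is pseudo-concave on `[-λ_*, λ_*]`. -/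
theorem result (ρ : Fin 2 → Qubit) (p : Fin 2 → ℝ) (hρ : ∀ x, IsState (ρ x))
    (hne : ρ 0 ≠ ρ 1) (hp : ∀ x, 0 ≤ p x) (hsum : p 0 + p 1 = 1) :
    0 < radicand (ρ 0) (ρ 1) ∧ 0 < lamStar (ρ 0) (ρ 1) ∧
    (∀ l, ∃ Q, IsEigenMeasurement (H (ρ 0) (ρ 1) l) Q) ∧
    (∀ l Q Q', IsEigenMeasurement (H (ρ 0) (ρ 1) l) Q →
      IsEigenMeasurement (H (ρ 0) (ρ 1) l) Q' →
      mutualInformation (joint p ρ Q) = mutualInformation (joint p ρ Q')) ∧
    ∀ Q : ℝ → Fin 2 → Qubit,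
      (∀ l ∈ Icc (-lamStar (ρ 0) (ρ 1)) (lamStar (ρ 0) (ρ 1)),
        IsEigenMeasurement (H (ρ 0) (ρ 1) l) (Q l)) →
      PseudoConcaveOn (fun l => mutualInformation (joint p ρ (Q l)))
        (-lamStar (ρ 0) (ρ 1)) (lamStar (ρ 0) (ρ 1)) := by
  have h : Q233.MI.Data (ρ 0) (ρ 1) :=
    ⟨(hρ 0).1, (hρ 1).1, (hρ 0).2, (hρ 1).2, hne⟩
  have conv : ∀ {A : Qubit} {Q : Fin 2 → Qubit}, IsEigenMeasurement A Q → Q233.MI.IsEig A Q :=
    fun hQ => ⟨hQ.1, hQ.2, hQ.3, hQ.4, hQ.5⟩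
  have form : ∀ l Q, IsEigenMeasurement (H (ρ 0) (ρ 1) l) Q →
      mutualInformation (joint p ρ Q) =
        p 0 * Q233.MI.eta (Q233.MI.Data.uu (ρ 0) (ρ 1) l) +
          p 1 * Q233.MI.eta (Q233.MI.Data.vv (ρ 0) (ρ 1) l) -
          Q233.MI.eta (p 0 * Q233.MI.Data.uu (ρ 0) (ρ 1) l +
            p 1 * Q233.MI.Data.vv (ρ 0) (ρ 1) l) := by
    intro l Q hQ
    exact h.mi_formula (hp 0) (hp 1) hsum l (conv hQ) (P := joint p ρ Q) (fun _ => rfl)
      (fun _ => rfl)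
  refine ⟨h.radicand_pos, h.ls_pos, fun l => ?_, fun l Q Q' hQ hQ' => ?_, fun Q hQ => ?_⟩
  · obtain ⟨Q, hQ⟩ := h.exists_meas l
    exact ⟨Q, ⟨hQ.1, hQ.2, hQ.3, hQ.4, hQ.5⟩⟩
  · rw [form l Q hQ, form l Q' hQ']
  · exact h.main (hp 0) (hp 1) hsum fun l hl => form l (Q l) (hQ l hl)

end Pool.Agent.Results.MP_6f99f7_mp.PseudoConcave
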